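import Pool.Agent.Y994.KW.Stm2

/-!
# Tightness in `C[0,1]`
-/

set_option autoImplicit false

namespace Pool.Agent.Y606.KW

open Filter Topology MeasureTheory Y994.KW

/-- the paths which oscillate by at least `ε` within distance `δ` -/
def Bad (δ ε : ℝ) : Set Pa := {w | ∃ s t : unitInterval, |(s : ℝ) - t| ≤ δ ∧ ε ≤ |w s - w t|}

theorem bad_mono {δ δ' ε : ℝ} (h : δ ≤ δ') : Bad δ ε ⊆ Bad δ' ε := by
  rintro w ⟨s, t, h1, h2⟩
  exact ⟨s, t, h1.trans h, h2⟩

theorem isClosed_bad (δ ε : ℝ) : IsClosed (Bad δ ε) := by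
  have h1 : Bad δ ε = Prod.fst '' {p : Pa × (unitInterval × unitInterval) |
      |(p.2.1 : ℝ) - p.2.2| ≤ δ ∧ ε ≤ |p.1 p.2.1 - p.1 p.2.2|} := by
    ext w
    constructor
    · rintro ⟨s, t, h⟩
      exact ⟨(w, (s, t)), h, rfl⟩
    · rintro ⟨⟨w', s, t⟩, h, rfl⟩
      exact ⟨s, t, h⟩
  rw [h1]
  refine isClosedMap_fst_of_compactSpace _ ?_
  have h2 : Continuous fun p : Pa × (unitInterval × unitInterval) => |(p.2.1 : ℝ) - p.2.2| := by
    fun_prop
  have h3 : Continuous fun p : Pa × (unitInterval × unitInterval) =>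
      |p.1 p.2.1 - p.1 p.2.2| := by
    fun_prop
  exact (isClosed_le h2 continuous_const).inter (isClosed_le continuous_const h3)

theorem iInter_bad {ε : ℝ} (hε : 0 < ε) : ⋂ l : ℕ, Bad (1 / ((l : ℝ) + 1)) ε = ∅ := by
  rw [Set.eq_empty_iff_forall_notMem]
  intro w hw
  rw [Set.mem_iInter] at hw
  have h1 : UniformContinuous w := CompactSpace.uniformContinuous_of_continuous w.continuous
  rw [Metric.uniformContinuous_iff] at h1
  obtain ⟨δ, hδ, h1⟩ := h1 ε hε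
  obtain ⟨l, hl⟩ := exists_nat_one_div_lt hδ
  obtain ⟨s, t, h2, h3⟩ := hw l
  have h4 := h1 (a := s) (b := t) (by
    rw [Subtype.dist_eq, Real.dist_eq]
    exact h2.trans_lt hl)
  rw [Real.dist_eq] at h4
  linarith

theorem single (μ : Measure Pa) [IsProbabilityMeasure μ] {ε η : ℝ} (hε : 0 < ε) (hη : 0 < η) :
    ∃ δ : ℝ, 0 < δ ∧ μ (Bad δ ε) ≤ ENNReal.ofReal η := by
  have h1 : Tendsto (μ ∘ fun l : ℕ => Bad (1 / ((l : ℝ) + 1)) ε) atTop
      (𝓝 (μ (⋂ l : ℕ, Bad (1 / ((l : ℝ) + 1)) ε))) := by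
    refine tendsto_measure_iInter_atTop
      (fun l => (isClosed_bad _ _).measurableSet.nullMeasurableSet) ?_
      ⟨0, measure_ne_top _ _⟩
    intro a b hab
    refine bad_mono ?_
    have : (a : ℝ) ≤ b := by exact_mod_cast hab
    gcongr
  rw [iInter_bad hε, measure_empty] at h1
  have h2 := (h1.eventually (gt_mem_nhds (ENNReal.ofReal_pos.2 hη))).exists
  obtain ⟨l, hl⟩ := h2
  exact ⟨1 / ((l : ℝ) + 1), by positivity, hl.le⟩

theorem finitely (μ : ℕ → Measure Pa) [∀ i, IsProbabilityMeasure (μ i)] {ε η : ℝ} (hε : 0 < ε)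
    (hη : 0 < η) : ∀ n : ℕ, ∃ δ : ℝ, 0 < δ ∧ ∀ i < n, μ i (Bad δ ε) ≤ ENNReal.ofReal η := by
  intro n
  induction n with
  | zero => exact ⟨1, one_pos, fun i hi => absurd hi (Nat.not_lt_zero i)⟩
  | succ n ih =>
    obtain ⟨δ, h1, h2⟩ := ih
    obtain ⟨δ', h3, h4⟩ := single (μ n) hε hη
    refine ⟨min δ δ', lt_min h1 h3, fun i hi => ?_⟩
    rcases Nat.lt_succ_iff_lt_or_eq.1 hi with h | rfl
    · exact (measure_mono (bad_mono (min_le_left _ _))).trans (h2 i h)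
    · exact (measure_mono (bad_mono (min_le_right _ _))).trans h4

theorem uniformly (μ : ℕ → Measure Pa) [∀ i, IsProbabilityMeasure (μ i)] (hm : ModC μ) {ε η : ℝ}
    (hε : 0 < ε) (hη : 0 < η) : ∃ δ : ℝ, 0 < δ ∧ ∀ i, μ i (Bad δ ε) ≤ ENNReal.ofReal η := by
  obtain ⟨δ, i0, h1, h2⟩ := hm ε η hε hη
  obtain ⟨δ', h3, h4⟩ := finitely μ hε hη i0
  refine ⟨min δ δ', lt_min h1 h3, fun i => ?_⟩
  rcases lt_or_ge i i0 with h | h
  · exact (measure_mono (bad_mono (min_le_right _ _))).trans (h4 i h)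
  · exact (measure_mono (bad_mono (min_le_left _ _))).trans (h2 i h)

/-- the compact set -/
def KK (δ : ℕ → ℝ) : Set Pa := {w | w 0 = 0 ∧ ∀ j : ℕ, ∀ s t : unitInterval,
  |(s : ℝ) - t| ≤ δ j → |w s - w t| ≤ 1 / ((j : ℝ) + 1)}

theorem bounded_KK {δ : ℕ → ℝ} (hδ : 0 < δ 0) : ∃ C : ℝ, ∀ w ∈ KK δ, ∀ s, |w s| ≤ C := by
  obtain ⟨n, hn⟩ := exists_nat_one_div_lt hδ
  refine ⟨(n : ℝ) + 1, fun w hw s => ?_⟩
  have hpos : (0 : ℝ) < (n : ℝ) + 1 := by positivity
  have hmem : ∀ k : ℕ, k ≤ n + 1 → (s : ℝ) * k / (n + 1) ∈ Set.Icc (0 : ℝ) 1 := by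
    intro k hk
    have hk' : (k : ℝ) ≤ n + 1 := by exact_mod_cast hk
    have h0 := s.2.1
    have h1 := s.2.2
    constructor
    · positivity
    · rw [div_le_one hpos]
      nlinarith
  have key : ∀ (k : ℕ) (hk : k ≤ n + 1), |w ⟨(s : ℝ) * k / (n + 1), hmem k hk⟩| ≤ k := by
    intro k
    induction k with
    | zero =>
      intro hk
      have h1 : (⟨(s : ℝ) * (0 : ℕ) / (n + 1), hmem 0 hk⟩ : unitInterval) = 0 := by
        apply Subtype.ext
        simp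
      rw [h1, hw.1]
      simp
    | succ k ih =>
      intro hk
      have h1 := ih (by omega)
      have h2 := hw.2 0 ⟨(s : ℝ) * (k + 1 : ℕ) / (n + 1), hmem (k + 1) hk⟩
        ⟨(s : ℝ) * k / (n + 1), hmem k (by omega)⟩ (by
          have h3 : (s : ℝ) * ((k + 1 : ℕ) : ℝ) / (n + 1) - (s : ℝ) * k / (n + 1) =
              (s : ℝ) * (1 / (n + 1)) := by
            push_cast
            ring
          show |(s : ℝ) * ((k + 1 : ℕ) : ℝ) / (n + 1) - (s : ℝ) * k / (n + 1)| ≤ δ 0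
          rw [h3, abs_of_nonneg (by have := s.2.1; positivity)]
          have h4 : (s : ℝ) * (1 / (n + 1)) ≤ 1 * (1 / (n + 1)) :=
            mul_le_mul_of_nonneg_right s.2.2 (by positivity)
          rw [one_mul] at h4
          exact h4.trans hn.le)
      have h5 := abs_add_le (w ⟨(s : ℝ) * (k + 1 : ℕ) / (n + 1), hmem (k + 1) hk⟩ -
        w ⟨(s : ℝ) * k / (n + 1), hmem k (by omega)⟩)
        (w ⟨(s : ℝ) * k / (n + 1), hmem k (by omega)⟩)
      rw [sub_add_cancel] at h5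
      push_cast at *
      norm_num at h2
      linarith
  have h1 := key (n + 1) le_rfl
  have h2 : (⟨(s : ℝ) * (n + 1 : ℕ) / (n + 1), hmem (n + 1) le_rfl⟩ : unitInterval) = s := by
    apply Subtype.ext
    show (s : ℝ) * (n + 1 : ℕ) / (n + 1) = s
    push_cast
    field_simp
  rw [h2] at h1
  push_cast at h1
  exact h1

theorem isClosed_KK (δ : ℕ → ℝ) : IsClosed (KK δ) := by
  have h1 : KK δ = {w : Pa | w 0 = 0} ∩ ⋂ (j : ℕ) (s : unitInterval) (t : unitInterval)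
      (_ : |(s : ℝ) - t| ≤ δ j), {w : Pa | |w s - w t| ≤ 1 / ((j : ℝ) + 1)} := by
    ext w
    constructor
    · rintro ⟨h1, h2⟩
      refine ⟨h1, ?_⟩
      simp only [Set.mem_iInter]
      exact h2
    · rintro ⟨h1, h2⟩
      refine ⟨h1, ?_⟩
      simp only [Set.mem_iInter] at h2
      exact h2
  rw [h1]
  refine IsClosed.inter (isClosed_eq (by fun_prop) continuous_const) ?_
  exact isClosed_iInter fun j => isClosed_iInter fun s => isClosed_iInter fun t =>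
    isClosed_iInter fun _ => isClosed_le (by fun_prop) continuous_const

theorem isCompact_KK {δ : ℕ → ℝ} (hδ : ∀ j, 0 < δ j) : IsCompact (KK δ) := by
  let e := ContinuousMap.isometryEquivBoundedOfCompact unitInterval ℝ
  obtain ⟨C, hC⟩ := bounded_KK (hδ 0)
  have h1 : IsCompact (e '' KK δ) := by
    refine BoundedContinuousFunction.arzela_ascoli₂ (Metric.closedBall (0 : ℝ) C)
      (isCompact_closedBall _ _) _ ?_ ?_ ?_
    · exact (e.toHomeomorph.isClosed_image).2 (isClosed_KK δ)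
    · rintro f x ⟨w, hw, rfl⟩
      rw [mem_closedBall_zero_iff, Real.norm_eq_abs]
      exact hC w hw x
    · intro x₀
      rw [Metric.equicontinuousAt_iff]
      intro ε hε
      obtain ⟨j, hj⟩ := exists_nat_one_div_lt hε
      refine ⟨δ j, hδ j, fun x hx => ?_⟩
      rintro ⟨_, w, hw, rfl⟩
      have h2 := hw.2 j x₀ x (by
        rw [← Real.dist_eq, ← Subtype.dist_eq, dist_comm]
        exact hx.le)
      rw [Real.dist_eq]
      exact h2.trans_lt hj
  exact (e.toHomeomorph.isCompact_image).1 h1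

theorem t_TIGHT : S_TIGHT := by
  intro μ hμ h0 hm
  rw [isTightMeasureSet_iff_exists_isCompact_measure_compl_le]
  intro ε hε
  obtain ⟨η, hη, hηε⟩ : ∃ η : ℝ, 0 < η ∧ ENNReal.ofReal η ≤ ε := by
    rcases eq_or_ne ε ⊤ with rfl | h
    · exact ⟨1, one_pos, le_top⟩
    · exact ⟨ε.toReal, ENNReal.toReal_pos hε.ne' h, ENNReal.ofReal_toReal_le⟩
  have h1 : ∀ j : ℕ, ∃ δ : ℝ, 0 < δ ∧
      ∀ i, μ i (Bad δ (1 / ((j : ℝ) + 1))) ≤ ENNReal.ofReal (η / 2 / 2 ^ j) := fun j =>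
    uniformly μ hm (by positivity) (by positivity)
  choose δ hδ hb using h1
  refine ⟨KK δ, isCompact_KK hδ, ?_⟩
  rintro _ ⟨i, rfl⟩
  have h2 : (KK δ)ᶜ ⊆ {w : Pa | ¬ w 0 = 0} ∪ ⋃ j : ℕ, Bad (δ j) (1 / ((j : ℝ) + 1)) := by
    intro w hw
    by_contra hcon
    rw [Set.mem_union, not_or, Set.mem_iUnion, not_exists] at hcon
    refine hw ⟨not_not.1 hcon.1, fun j s t hst => ?_⟩
    by_contra hlt
    exact hcon.2 j ⟨s, t, hst, (not_le.1 hlt).le⟩
  have h3 : μ i {w : Pa | ¬ w 0 = 0} = 0 := h0 i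
  calc μ i (KK δ)ᶜ ≤ μ i {w : Pa | ¬ w 0 = 0} + μ i (⋃ j : ℕ, Bad (δ j) (1 / ((j : ℝ) + 1))) :=
        (measure_mono h2).trans (measure_union_le _ _)
    _ ≤ 0 + ∑' j : ℕ, ENNReal.ofReal (η / 2 / 2 ^ j) := by
        rw [h3]
        gcongr
        exact (measure_iUnion_le _).trans (ENNReal.tsum_le_tsum fun j => hb j i)
    _ = ENNReal.ofReal η := by
        rw [zero_add, ← ENNReal.ofReal_tsum_of_nonneg (fun j => by positivity)
          (summable_geometric_two' η), tsum_geometric_two']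
    _ ≤ ε := hηε

end Pool.Agent.Y606.KW
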